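import Pool.Agent.GRA.StmtsK
import Pool.Agent.Helper64_FR.ORT

/-!
# Row KEX: expansion of `sph` over words
-/

open MeasureTheory Matrix Finset
open scoped ComplexConjugate

namespace Pool.Agent.GRA.H39

open Pool.Agent.GRA Pool.Agent.Helper64_FR Pool.Agent.UTR Pool.Agent.BSE
open Pool.Agent.Helper64_FR.ORT Pool.Agent.Helper64_FR.FIX

variable {n : ℕ}

/-- powers of a double sum -/
theorem sum_sum_pow (F : Fin n → Fin n → ℂ) (k : ℕ) :
    (∑ i, ∑ j, F i j) ^ k = ∑ I : Fin k → Fin n, ∑ J : Fin k → Fin n, ∏ s, F (I s) (J s) := by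
  rw [Fintype.sum_pow]
  refine Finset.sum_congr rfl fun I _ => ?_
  rw [Finset.prod_univ_sum, Fintype.piFinset_univ]

/-- the expansion, pointwise -/
theorem pt_exp (g M : Matrix (Fin n) (Fin n) ℂ) (l : Fin n) (k : ℕ) :
    (star g * M * g) l l ^ k = ∑ I : Fin k → Fin n, ∑ J : Fin k → Fin n,
      (∏ s, (conj (g (I s) l) * g (J s) l)) * ∏ s, M (I s) (J s) := by
  have h1 : (star g * M * g) l l = ∑ i, ∑ j, (conj (g i l) * g j l) * M i j := by
    rw [Matrix.mul_apply]
    simp only [Matrix.mul_apply, Finset.sum_mul]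
    rw [Finset.sum_comm]
    refine Finset.sum_congr rfl fun i _ => Finset.sum_congr rfl fun j _ => ?_
    rw [Matrix.star_apply]
    change conj (g i l) * M i j * g j l = _
    ring
  rw [h1, sum_sum_pow]
  refine Finset.sum_congr rfl fun I _ => Finset.sum_congr rfl fun J _ => ?_
  rw [Finset.prod_mul_distrib]

theorem cont_arr (σ : URep n) (h : σ.Sp) (l : Fin n) (k : ℕ) (x : σ.Sp) (I J : Fin k → Fin n) :
    Continuous fun g : UU n => (inner ℂ (σ.op g h) x : ℂ) *
      ∏ s, (conj ((g : Matrix (Fin n) (Fin n) ℂ) (I s) l) *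
        (g : Matrix (Fin n) (Fin n) ℂ) (J s) l) := by
  have h1 : Continuous fun g : UU n => (inner ℂ (σ.op g h) x : ℂ) :=
    ((continuous_op σ).clm_apply continuous_const).inner continuous_const
  have h2 : ∀ i j : Fin n, Continuous fun g : UU n => (g : Matrix (Fin n) (Fin n) ℂ) i j :=
    fun i j => Continuous.matrix_elem continuous_subtype_val i j
  refine h1.mul (continuous_finsetProd _ fun s _ => ?_)
  exact (Complex.continuous_conj.comp (h2 (I s) l)).mul (h2 (J s) l)

theorem int_arr (σ : URep n) (h : σ.Sp) (l : Fin n) (k : ℕ) (x : σ.Sp) (I J : Fin k → Fin n) :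
    Integrable (fun g : UU n => (inner ℂ (σ.op g h) x : ℂ) *
      ∏ s, (conj ((g : Matrix (Fin n) (Fin n) ℂ) (I s) l) *
        (g : Matrix (Fin n) (Fin n) ℂ) (J s) l)) (haarU n) :=
  (cont_arr σ h l k x I J).integrable_of_hasCompactSupport (HasCompactSupport.of_compactSpace _)

theorem part1 (σ : URep n) (h : σ.Sp) (l : Fin n) (k : ℕ) (x : σ.Sp)
    (M : Matrix (Fin n) (Fin n) ℂ) : sph σ h l k x M =
    ∑ I : Fin k → Fin n, ∑ J : Fin k → Fin n, arr σ h l k x I J * ∏ s, M (I s) (J s) := by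
  unfold sph arr
  have h1 : ∀ g : UU n, (inner ℂ (σ.op g h) x : ℂ) *
      (star (g : Matrix (Fin n) (Fin n) ℂ) * M * (g : Matrix (Fin n) (Fin n) ℂ)) l l ^ k =
      ∑ I : Fin k → Fin n, ∑ J : Fin k → Fin n, ((inner ℂ (σ.op g h) x : ℂ) *
        ∏ s, (conj ((g : Matrix (Fin n) (Fin n) ℂ) (I s) l) *
          (g : Matrix (Fin n) (Fin n) ℂ) (J s) l)) * ∏ s, M (I s) (J s) := by
    intro g
    rw [pt_exp, Finset.mul_sum]
    refine Finset.sum_congr rfl fun I _ => ?_
    rw [Finset.mul_sum]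
    refine Finset.sum_congr rfl fun J _ => ?_
    ring
  simp only [h1]
  rw [integral_finsetSum _ fun I _ => integrable_finsetSum _ fun J _ =>
    (int_arr σ h l k x I J).mul_const _]
  refine Finset.sum_congr rfl fun I _ => ?_
  rw [integral_finsetSum _ fun J _ => (int_arr σ h l k x I J).mul_const _]
  refine Finset.sum_congr rfl fun J _ => ?_
  rw [integral_mul_const]

theorem kex : KEXStmt := by
  intro n σ h l k
  refine ⟨part1 σ h l k, ?_⟩
  have h1 : ∀ g : UU n, (inner ℂ (σ.op g h) h : ℂ) * conj (sph σ h l k h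
      (rk (fun i => (g : Matrix (Fin n) (Fin n) ℂ) i l)
        (fun i => (g : Matrix (Fin n) (Fin n) ℂ) i l))) =
      ∑ I : Fin k → Fin n, ∑ J : Fin k → Fin n, ((inner ℂ (σ.op g h) h : ℂ) *
        ∏ s, (conj ((g : Matrix (Fin n) (Fin n) ℂ) (I s) l) *
          (g : Matrix (Fin n) (Fin n) ℂ) (J s) l)) * conj (arr σ h l k h I J) := by
    intro g
    rw [part1, map_sum, Finset.mul_sum]
    refine Finset.sum_congr rfl fun I _ => ?_
    rw [map_sum, Finset.mul_sum]
    refine Finset.sum_congr rfl fun J _ => ?_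
    have h2 : conj (∏ s, rk (fun i => (g : Matrix (Fin n) (Fin n) ℂ) i l)
        (fun i => (g : Matrix (Fin n) (Fin n) ℂ) i l) (I s) (J s)) =
        ∏ s, (conj ((g : Matrix (Fin n) (Fin n) ℂ) (I s) l) *
          (g : Matrix (Fin n) (Fin n) ℂ) (J s) l) := by
      rw [map_prod]
      refine Finset.prod_congr rfl fun s _ => ?_
      simp [rk]
    rw [map_mul, h2]
    ring
  simp only [h1]
  rw [integral_finsetSum _ fun I _ => integrable_finsetSum _ fun J _ =>
    (int_arr σ h l k h I J).mul_const _]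
  push_cast
  refine Finset.sum_congr rfl fun I _ => ?_
  rw [integral_finsetSum _ fun J _ => (int_arr σ h l k h I J).mul_const _]
  refine Finset.sum_congr rfl fun J _ => ?_
  rw [integral_mul_const]
  change _ = arr σ h l k h I J * conj (arr σ h l k h I J)
  rw [Complex.mul_conj, Complex.normSq_eq_norm_sq]
  push_cast
  ring

end Pool.Agent.GRA.H39
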