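import Pool.Agent.GRA.StmtsM
import Pool.Agent.Helper64_FR.ORT

/-!
# Row MIP: the embeddings of the components and the projections
-/

open MeasureTheory Matrix Finset
open scoped ComplexConjugate

namespace Pool.Agent.GRA.H39

open Pool.Agent.GRA Pool.Agent.Helper64_FR Pool.Agent.UTR Pool.Agent.BSE
open Pool.Agent.Helper64_FR.ORT Pool.Agent.Helper64_FR.FIX

/-- the block of `Fin (n + 1)` -/
abbrev up {n : ℕ} (B : Finset (Fin n)) : Finset (Fin (n + 1)) := B.map Fin.castSuccEmb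

theorem last_notMem {n : ℕ} (B : Finset (Fin n)) : Fin.last n ∉ up B := by
  intro h
  obtain ⟨i, -, hi⟩ := Finset.mem_map.1 h
  exact (Fin.castSucc_lt_last i).ne hi

theorem cs_mem {n : ℕ} (B : Finset (Fin n)) (i : Fin n) : i.castSucc ∈ up B ↔ i ∈ B := by
  constructor
  · intro h
    obtain ⟨j, hj, hi⟩ := Finset.mem_map.1 h
    have : j = i := Fin.castSucc_injective n hi
    rwa [← this]
  · intro h
    exact Finset.mem_map.2 ⟨i, h, rfl⟩

theorem emb_coe {n : ℕ} (A : UU n) :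
    ((emb A : UU (n + 1)) : Matrix (Fin (n + 1)) (Fin (n + 1)) ℂ) = embM (A : Matrix (Fin n) (Fin n) ℂ) 1 :=
  rfl

theorem emb_mem {n : ℕ} (B : Finset (Fin n)) (A : UU n) (hA : A ∈ UB B) : emb A ∈ UB (up B) := by
  have hA' : ∀ i j, (i ∉ B ∨ j ∉ B) →
    (A : Matrix (Fin n) (Fin n) ℂ) i j = if i = j then 1 else 0 := hA
  intro i j hij
  rw [emb_coe]
  rcases Fin.eq_castSucc_or_eq_last i with ⟨i', rfl⟩ | rfl
  · rcases Fin.eq_castSucc_or_eq_last j with ⟨j', rfl⟩ | rfl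
    · rw [embM_cc, hA' i' j' ?_]
      · simp only [Fin.castSucc_inj]
      · rcases hij with h | h
        · left
          intro h2
          exact h ((cs_mem B i').2 h2)
        · right
          intro h2
          exact h ((cs_mem B j').2 h2)
    · rw [embM_cl, if_neg (Fin.castSucc_lt_last i').ne]
  · rcases Fin.eq_castSucc_or_eq_last j with ⟨j', rfl⟩ | rfl
    · rw [embM_lc, if_neg (Fin.castSucc_lt_last j').ne']
    · rw [embM_ll, if_pos rfl]

theorem emb_surj {n : ℕ} (B : Finset (Fin n)) (A : UU (n + 1)) (hA : A ∈ UB (up B)) :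
    ∃ A0 ∈ UB B, emb A0 = A := by
  have hA' : ∀ i j, (i ∉ up B ∨ j ∉ up B) →
    (A : Matrix (Fin (n + 1)) (Fin (n + 1)) ℂ) i j = if i = j then 1 else 0 := hA
  obtain ⟨M, hM⟩ : ∃ M : Matrix (Fin n) (Fin n) ℂ, M = Matrix.of fun i j =>
    (A : Matrix (Fin (n + 1)) (Fin (n + 1)) ℂ) i.castSucc j.castSucc := ⟨_, rfl⟩
  have hE : embM M 1 = (A : Matrix (Fin (n + 1)) (Fin (n + 1)) ℂ) := by
    ext i j
    rcases Fin.eq_castSucc_or_eq_last i with ⟨i', rfl⟩ | rfl
    · rcases Fin.eq_castSucc_or_eq_last j with ⟨j', rfl⟩ | rfl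
      · rw [embM_cc, hM, Matrix.of_apply]
      · rw [embM_cl, hA' _ _ (Or.inr (last_notMem B)), if_neg (Fin.castSucc_lt_last i').ne]
    · rcases Fin.eq_castSucc_or_eq_last j with ⟨j', rfl⟩ | rfl
      · rw [embM_lc, hA' _ _ (Or.inl (last_notMem B)), if_neg (Fin.castSucc_lt_last j').ne']
      · rw [embM_ll, hA' _ _ (Or.inl (last_notMem B)), if_pos rfl]
  have hU : M * star M = 1 := by
    have h1 : (A : Matrix (Fin (n + 1)) (Fin (n + 1)) ℂ) * star (A : Matrix (Fin (n + 1)) (Fin (n + 1)) ℂ)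
        = 1 := Matrix.mem_unitaryGroup_iff.1 A.2
    rw [← hE, star_embM, ← embM_mul, map_one, mul_one, ← embM_one] at h1
    ext i j
    have h2 := congrFun (congrFun h1 i.castSucc) j.castSucc
    rwa [embM_cc, embM_cc] at h2
  refine ⟨⟨M, Matrix.mem_unitaryGroup_iff.2 hU⟩, ?_, Subtype.ext hE⟩
  intro i j hij
  change M i j = _
  rw [hM, Matrix.of_apply, hA' _ _ ?_]
  · simp only [Fin.castSucc_inj]
  · rcases hij with h | h
    · left
      intro h2
      exact h ((cs_mem B i).1 h2)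
    · right
      intro h2
      exact h ((cs_mem B j).1 h2)

theorem P_symm {n : ℕ} (ρ : URep n) (B : Finset (Fin n)) (x y : ρ.Sp) :
    (inner ℂ (ρ.P B x) y : ℂ) = inner ℂ x (ρ.P B y) := by
  have h := P_star ρ B
  rw [ContinuousLinearMap.star_eq_adjoint] at h
  conv_lhs => rw [← h]
  exact ContinuousLinearMap.adjoint_inner_left _ _ _

section comp

variable {n : ℕ} {ρ : URep (n + 1)} {σ : URep n} {T : σ.Sp →ₗᵢ[ℂ] ρ.Sp}

theorem pr_left (y : ρ.Sp) (x : σ.Sp) : (inner ℂ (pr T y) x : ℂ) = inner ℂ y (T x) :=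
  ContinuousLinearMap.adjoint_inner_left _ _ _

theorem pr_eqv (c : Cmp ρ σ T) (g : UU n) (y : ρ.Sp) :
    pr T (ρ.op (emb g) y) = σ.op g (pr T y) := by
  refine ext_inner_right ℂ fun x => ?_
  rw [pr_left, inner_op_left, inner_op_left, pr_left, c.eqv, map_inv]

theorem fx_T (c : Cmp ρ σ T) (B : Finset (Fin n)) (x : σ.Sp) (hx : Fx σ B x) :
    Fx ρ (up B) (T x) := by
  intro A hA
  obtain ⟨A0, hA0, rfl⟩ := emb_surj B A hA
  rw [← c.eqv, hx A0 hA0]

theorem fx_pr (c : Cmp ρ σ T) (B : Finset (Fin n)) (y : ρ.Sp) (hy : Fx ρ (up B) y) :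
    Fx σ B (pr T y) := by
  intro A hA
  rw [← pr_eqv c, hy _ (emb_mem B A hA)]

theorem T_P (c : Cmp ρ σ T) (B : Finset (Fin n)) (x : σ.Sp) :
    T (σ.P B x) = ρ.P (up B) (T x) := by
  refine ext_inner_left ℂ fun z => ?_
  have hy : Fx ρ (up B) (ρ.P (up B) z) := P_apply_inv ρ (up B) z
  have h1 : ρ.P (up B) (T (σ.P B x)) = T (σ.P B x) :=
    P_inv ρ (up B) _ (fx_T c B _ (P_apply_inv σ B x))
  have h2 : (inner ℂ z (T (σ.P B x)) : ℂ) = inner ℂ (pr T (ρ.P (up B) z)) (σ.P B x) := by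
    rw [pr_left, P_symm, h1]
  have h3 : (inner ℂ z (ρ.P (up B) (T x)) : ℂ) = inner ℂ (pr T (ρ.P (up B) z)) x := by
    rw [pr_left, P_symm]
  rw [h2, h3]
  exact inner_P_of_inv σ B _ _ (fx_pr c B _ hy)

theorem pr_P (c : Cmp ρ σ T) (B : Finset (Fin n)) (f : ρ.Sp) :
    pr T (ρ.P (up B) f) = σ.P B (pr T f) := by
  refine ext_inner_right ℂ fun x => ?_
  rw [pr_left, P_symm, P_symm, pr_left, T_P c]

theorem up_singleton (i : Fin n) : up ({i} : Finset (Fin n)) = {i.castSucc} := by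
  simp [up]

theorem up_univ : up (Finset.univ : Finset (Fin n)) = Finset.univ.erase (Fin.last n) := by
  ext i
  rcases Fin.eq_castSucc_or_eq_last i with ⟨i', rfl⟩ | rfl
  · rw [cs_mem]
    simp [(Fin.castSucc_lt_last i').ne]
  · simp

theorem tinv_T (c : Cmp ρ σ T) (x : σ.Sp) (hx : TInv σ x) : TInv ρ (T x) := by
  intro i
  rcases Fin.eq_castSucc_or_eq_last i with ⟨i', rfl⟩ | rfl
  · rw [← up_singleton]
    exact fx_T c {i'} x (hx i')
  · exact c.fix x

theorem tinv_pr (c : Cmp ρ σ T) (f : ρ.Sp) (hf : TInv ρ f) : TInv σ (pr T f) := by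
  intro i
  refine fx_pr c {i} f ?_
  rw [up_singleton]
  exact hf i.castSucc

/-- the extension of a permutation -/
def ext1P (τ : Equiv.Perm (Fin n)) : Equiv.Perm (Fin (n + 1)) :=
  (finSuccEquivLast.trans (Equiv.optionCongr τ)).trans finSuccEquivLast.symm

theorem ext1P_cs (τ : Equiv.Perm (Fin n)) (i : Fin n) : ext1P τ i.castSucc = (τ i).castSucc := by
  simp [ext1P]

theorem ext1P_last (τ : Equiv.Perm (Fin n)) : ext1P τ (Fin.last n) = Fin.last n := by
  simp [ext1P]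

theorem emb_pm (τ : Equiv.Perm (Fin n)) : emb (pm τ) = pm (ext1P τ) := by
  refine Subtype.ext ?_
  change embM (pmM τ) 1 = pmM (ext1P τ)
  ext i j
  rcases Fin.eq_castSucc_or_eq_last i with ⟨i', rfl⟩ | rfl
  · rcases Fin.eq_castSucc_or_eq_last j with ⟨j', rfl⟩ | rfl
    · rw [embM_cc]
      simp only [pmM, Matrix.of_apply, ext1P_cs, Fin.castSucc_inj]
    · rw [embM_cl]
      simp only [pmM, Matrix.of_apply, ext1P_last]
      rw [if_neg (Fin.castSucc_lt_last i').ne]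
  · rcases Fin.eq_castSucc_or_eq_last j with ⟨j', rfl⟩ | rfl
    · rw [embM_lc]
      simp only [pmM, Matrix.of_apply, ext1P_cs]
      rw [if_neg (Fin.castSucc_lt_last _).ne']
    · rw [embM_ll]
      simp only [pmM, Matrix.of_apply, ext1P_last]
      rw [if_pos trivial]

theorem si_pr (c : Cmp ρ σ T) (f : ρ.Sp) (hf : SI ρ f) : SI σ (pr T f) := by
  intro τ
  rw [← pr_eqv c, emb_pm, hf]

theorem ntr (c : Cmp ρ σ T) (hirr : σ.Irred) (hN : NSph ρ) : NTr σ := by
  intro h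
  have hop : ∀ (g : UU n) (x : σ.Sp), σ.op g x = x := by
    intro g x
    unfold URep.op
    rw [h g, map_one]
    rfl
  have hd : 0 < σ.dim := hirr.1
  obtain ⟨x, hx⟩ : ∃ x : σ.Sp, x ≠ 0 := by
    refine ⟨EuclideanSpace.single ⟨0, hd⟩ 1, fun h0 => ?_⟩
    have := congrArg (fun v : σ.Sp => ‖v‖) h0
    simp at this
  have h1 : Fx ρ (Finset.univ.erase (Fin.last n)) (T x) := by
    rw [← up_univ]
    exact fx_T c _ x fun g _ => hop g x
  have h2 := hN (Fin.last n) (T x) h1 (c.fix x)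
  exact hx ((map_eq_zero_iff T T.injective).1 h2)

end comp

theorem norm_sum {n : ℕ} {ρ : URep (n + 1)} (d : Deco ρ) (y : ∀ t, (d.σ t).Sp) :
    ‖∑ t, d.T t (y t)‖ ^ 2 = ∑ t, ‖y t‖ ^ 2 := by
  have h1 : (inner ℂ (∑ t, d.T t (y t)) (∑ t, d.T t (y t)) : ℂ) = ∑ t, ((‖y t‖ ^ 2 : ℝ) : ℂ) := by
    rw [sum_inner]
    refine Finset.sum_congr rfl fun t _ => ?_
    rw [inner_sum, Finset.sum_eq_single t]
    · rw [LinearIsometry.inner_map_map, inner_self_eq_norm_sq_to_K]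
      push_cast
      rfl
    · intro s _ hs
      exact d.orth t s (Ne.symm hs) _ _
    · intro h
      exact absurd (Finset.mem_univ t) h
  rw [inner_self_eq_norm_sq_to_K] at h1
  have h2 : ((‖∑ t, d.T t (y t)‖ ^ 2 : ℝ) : ℂ) = ((∑ t, ‖y t‖ ^ 2 : ℝ) : ℂ) := by
    push_cast
    push_cast at h1
    exact h1
  exact Complex.ofReal_injective h2

theorem mip : MIPStmt := by
  intro n ρ d
  refine ⟨fun t B x => T_P (d.cmp t) B x, fun t B f => pr_P (d.cmp t) B f,
    fun t x hx => tinv_T (d.cmp t) x hx,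
    fun t f => ⟨fun hf => tinv_pr (d.cmp t) f hf, fun hf => si_pr (d.cmp t) f hf⟩,
    fun hN t => ntr (d.cmp t) (d.irr t) hN, ?_⟩
  intro f hf
  have htot : f = ∑ t, d.T t (pr (d.T t) f) := d.tot f (hf (Fin.last n))
  refine ⟨?_, fun B => ?_⟩
  · conv_lhs => rw [htot]
    exact norm_sum d _
  · have h1 : f - ρ.P (B.map Fin.castSuccEmb) f =
        ∑ t, d.T t (pr (d.T t) f - (d.σ t).P B (pr (d.T t) f)) := by
      have h2 : ρ.P (B.map Fin.castSuccEmb) f = ∑ t, d.T t ((d.σ t).P B (pr (d.T t) f)) := by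
        conv_lhs => rw [htot]
        rw [map_sum]
        exact Finset.sum_congr rfl fun t _ => (T_P (d.cmp t) B _).symm
      rw [h2]
      simp only [map_sub, Finset.sum_sub_distrib]
      rw [← htot]
    rw [h1]
    exact norm_sum d _

end Pool.Agent.GRA.H39
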